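import Pool.Agent.LibMHL5.HR

/-! Mixed hard Lefschetz for `K[X_1..X_s]/(X_j^(μ_j+1))`, in polynomial form. -/

set_option linter.unusedSectionVars false

namespace LibMHL5

open MvPolynomial

variable {K : Type*} [Field K] [LinearOrder K] [IsStrictOrderedRing K]
variable {s : ℕ} {μ : Fin s → ℕ}

/-- The multiplicity vector of a set in the disjoint union of blocks of sizes `μ_j`. -/
noncomputable def mult (S : Finset (Σ j : Fin s, Fin (μ j))) : Fin s →₀ ℕ :=
  ∑ p ∈ S, Finsupp.single p.1 1

theorem mult_erase {S : Finset (Σ j : Fin s, Fin (μ j))} {p : Σ j : Fin s, Fin (μ j)}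
    (hp : p ∈ S) : mult (S.erase p) + Finsupp.single p.1 1 = mult S :=
  Finset.sum_erase_add S _ hp

theorem mult_apply (S : Finset (Σ j : Fin s, Fin (μ j))) (j : Fin s) :
    mult S j = (S.filter fun p => p.1 = j).card := by
  rw [mult, Finsupp.finsetSum_apply, Finset.card_filter]
  exact Finset.sum_congr rfl fun p _ => by rw [Finsupp.single_apply]

theorem mult_degree (S : Finset (Σ j : Fin s, Fin (μ j))) : ∑ j, mult S j = S.card := by
  simp only [mult, Finsupp.finsetSum_apply]
  rw [Finset.sum_comm, Finset.card_eq_sum_ones]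
  refine Finset.sum_congr rfl fun p _ => ?_
  simp [Finsupp.single_apply]

theorem mult_le (S : Finset (Σ j : Fin s, Fin (μ j))) (j : Fin s) : mult S j ≤ μ j := by
  rw [mult_apply]
  have h : (S.filter fun p => p.1 = j) ⊆ Finset.univ.image (fun k : Fin (μ j) =>
      (⟨j, k⟩ : Σ j : Fin s, Fin (μ j))) := by
    rintro ⟨a, k⟩ hp
    obtain ⟨_, hpj⟩ := Finset.mem_filter.mp hp
    simp only at hpj
    subst hpj
    exact Finset.mem_image.mpr ⟨k, Finset.mem_univ _, rfl⟩
  calc _ ≤ _ := Finset.card_le_card h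
    _ ≤ _ := Finset.card_image_le
    _ = μ j := by simp

theorem exists_mult {b : Fin s →₀ ℕ} (hb : ∀ j, b j ≤ μ j) :
    ∃ S : Finset (Σ j : Fin s, Fin (μ j)), mult S = b := by
  refine ⟨Finset.univ.filter fun p => p.2.val < b p.1, ?_⟩
  ext j
  rw [mult_apply]
  have h : ((Finset.univ.filter fun p : (Σ j : Fin s, Fin (μ j)) => p.2.val < b p.1).filter
      fun p => p.1 = j) = (Finset.univ.filter fun k : Fin (μ j) => k.val < b j).image
        (fun k => (⟨j, k⟩ : Σ j : Fin s, Fin (μ j))) := by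
    ext ⟨a, k⟩
    simp only [Finset.mem_filter, Finset.mem_univ, true_and, Finset.mem_image]
    constructor
    · rintro ⟨h1, h2⟩
      subst h2
      exact ⟨k, h1, rfl⟩
    · rintro ⟨k', h1, h2⟩
      cases h2
      exact ⟨h1, rfl⟩
  rw [h, Finset.card_image_of_injective]
  · rw [Fin.card_filter_val_lt]
    exact min_eq_right (hb j)
  · intro k k' hk
    cases hk
    rfl

/-- The block embedding into the squarefree algebra. -/
noncomputable def U (g : MvPolynomial (Fin s) K) (S : Finset (Σ j : Fin s, Fin (μ j))) : K :=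
  (∏ j, (((mult S j).factorial : ℕ) : K)) * coeff (mult S) g

theorem prod_fact_add (m : Fin s →₀ ℕ) (k : Fin s) :
    ∏ j, (((((m + Finsupp.single k 1 : Fin s →₀ ℕ) j).factorial : ℕ)) : K)
      = ((m k + 1 : ℕ) : K) * ∏ j, (((m j).factorial : ℕ) : K) := by
  rw [← Finset.mul_prod_erase Finset.univ _ (Finset.mem_univ k),
    ← Finset.mul_prod_erase Finset.univ (fun j => (((m j).factorial : ℕ) : K)) (Finset.mem_univ k)]
  rw [← mul_assoc]
  congr 1
  · simp [Nat.factorial_succ]
  · refine Finset.prod_congr rfl fun j hj => ?_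
    have : j ≠ k := Finset.ne_of_mem_erase hj
    simp [this.symm]

theorem U_X_mul (g : MvPolynomial (Fin s) K) (k : Fin s)
    (S : Finset (Σ j : Fin s, Fin (μ j))) :
    U (X k * g) S = ∑ p ∈ S.filter (fun p => p.1 = k), U g (S.erase p) := by
  have hterm : ∀ p ∈ S.filter (fun p => p.1 = k),
      ((mult S k : ℕ) : K) * U g (S.erase p) = U (X k * g) S := by
    intro p hp
    obtain ⟨hpS, hpk⟩ := Finset.mem_filter.mp hp
    have h1 := mult_erase hpS
    rw [hpk] at h1
    unfold U
    rw [← h1, prod_fact_add, add_comm (mult (S.erase p)) (Finsupp.single k 1), coeff_X_mul]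
    simp only [Finsupp.add_apply, Finsupp.single_eq_same]
    push_cast
    ring
  by_cases h0 : mult S k = 0
  · have he : S.filter (fun p => p.1 = k) = ∅ := by
      rw [← Finset.card_eq_zero, ← mult_apply]
      exact h0
    rw [he, Finset.sum_empty]
    unfold U
    rw [coeff_X_mul', if_neg, mul_zero]
    rw [Finsupp.mem_support_iff]
    push Not
    exact h0
  · have hne : ((mult S k : ℕ) : K) ≠ 0 := Nat.cast_ne_zero.mpr h0
    apply mul_left_cancel₀ hne
    rw [Finset.mul_sum, Finset.sum_congr rfl hterm, Finset.sum_const, nsmul_eq_mul, ← mult_apply]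

theorem U_add (g g' : MvPolynomial (Fin s) K) :
    (U (g + g') : Finset (Σ j : Fin s, Fin (μ j)) → K) = U g + U g' := by
  funext S
  simp [U, mul_add]

theorem U_C_mul (a : K) (g : MvPolynomial (Fin s) K) (S : Finset (Σ j : Fin s, Fin (μ j))) :
    U (C a * g) S = a * U g S := by
  simp only [U, coeff_C_mul]
  ring

theorem U_sum {α : Type*} (t : Finset α) (g : α → MvPolynomial (Fin s) K)
    (S : Finset (Σ j : Fin s, Fin (μ j))) : U (∑ a ∈ t, g a) S = ∑ a ∈ t, U (g a) S := by
  simp only [U, coeff_sum, Finset.mul_sum]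

/-- The linear form with coefficients `c`. -/
noncomputable def lin (c : Fin s → K) : MvPolynomial (Fin s) K := ∑ j, C (c j) * X j

theorem U_lin_mul (c : Fin s → K) (g : MvPolynomial (Fin s) K) :
    (U (lin c * g) : Finset (Σ j : Fin s, Fin (μ j)) → K) = L (fun p => c p.1) (U g) := by
  funext S
  rw [lin, Finset.sum_mul, U_sum, L_apply]
  simp only [mul_assoc, U_C_mul, U_X_mul, Finset.mul_sum, Finset.sum_filter]
  rw [Finset.sum_comm]
  refine Finset.sum_congr rfl fun p _ => ?_
  rw [Finset.sum_eq_single p.1]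
  · simp
  · intro j _ hj
    simp [hj.symm]
  · intro h
    exact absurd (Finset.mem_univ _) h

theorem U_prod_mul (cs : List (Fin s → K)) (g : MvPolynomial (Fin s) K) :
    (U ((cs.map lin).prod * g) : Finset (Σ j : Fin s, Fin (μ j)) → K)
      = P (cs.map fun c => (fun p : (Σ j : Fin s, Fin (μ j)) => c p.1)) (U g) := by
  induction cs with
  | nil => simp
  | cons c cs ih =>
    rw [List.map_cons, List.prod_cons, mul_assoc, U_lin_mul, ih, List.map_cons, P_cons,
      Module.End.mul_apply]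

theorem Hom_U {g : MvPolynomial (Fin s) K} {i : ℕ} (hg : g.IsHomogeneous i) :
    Hom i (U g : Finset (Σ j : Fin s, Fin (μ j)) → K) := by
  intro S hS
  unfold U
  rw [hg.coeff_eq_zero, mul_zero]
  rw [Finsupp.degree_eq_sum, mult_degree]
  exact hS

theorem Z_U {g : MvPolynomial (Fin s) K} :
    Z Finset.univ (U g : Finset (Σ j : Fin s, Fin (μ j)) → K) ↔
      ∀ b : Fin s →₀ ℕ, (∀ j, b j ≤ μ j) → coeff b g = 0 := by
  constructor
  · intro h b hb
    obtain ⟨S, rfl⟩ := exists_mult hb
    have h1 := h S (Finset.subset_univ _)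
    unfold U at h1
    refine (mul_eq_zero.mp h1).resolve_left ?_
    refine Finset.prod_ne_zero_iff.mpr ?_
    intro j _
    exact Nat.cast_ne_zero.mpr (Nat.factorial_ne_zero _)
  · intro h S _
    unfold U
    rw [h _ (mult_le S), mul_zero]

/-- Injectivity of a product of positive forms below the middle, polynomial form. -/
theorem mhl_inj {i : ℕ} (cs : List (Fin s → K)) (hc : ∀ c ∈ cs, ∀ j, 0 < c j)
    (h : 2 * i + cs.length ≤ ∑ j, μ j) (g : MvPolynomial (Fin s) K) (hg : g.IsHomogeneous i)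
    (hz : ∀ b : Fin s →₀ ℕ, (∀ j, b j ≤ μ j) → coeff b (g * (cs.map lin).prod) = 0) :
    ∀ b : Fin s →₀ ℕ, (∀ j, b j ≤ μ j) → coeff b g = 0 := by
  rw [← Z_U] at hz ⊢
  rw [mul_comm, U_prod_mul] at hz
  refine hardLefschetz _ i _ ?_ ?_ _ (Hom_U hg) hz
  · intro c hcm j
    obtain ⟨c', hc', rfl⟩ := List.mem_map.mp hcm
    exact hc c' hc' j.1
  · rw [List.length_map, Finset.card_univ, Fintype.card_sigma]
    simpa using h

/-- The exponents of degree `d` in the box. -/
noncomputable def BX (μ : Fin s → ℕ) (d : ℕ) : Finset (Fin s →₀ ℕ) :=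
  (Finset.Iic (Finsupp.equivFunOnFinite.symm μ)).filter fun b => ∑ j, b j = d

theorem mem_BX {d : ℕ} {b : Fin s →₀ ℕ} : b ∈ BX μ d ↔ (∀ j, b j ≤ μ j) ∧ ∑ j, b j = d := by
  rw [BX, Finset.mem_filter, Finset.mem_Iic]
  rfl

theorem card_BX {i m : ℕ} (h : 2 * i + m = ∑ j, μ j) : (BX μ i).card = (BX μ (i + m)).card := by
  have hsub : ∀ b : Fin s →₀ ℕ, (∀ j, b j ≤ μ j) →
      ∑ j, (Finsupp.equivFunOnFinite.symm μ - b) j = ∑ j, μ j - ∑ j, b j := by
    intro b hb
    rw [← Finset.sum_tsub_distrib _ (fun j _ => hb j)]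
    rfl
  refine Finset.card_bij' (fun b _ => Finsupp.equivFunOnFinite.symm μ - b)
    (fun b _ => Finsupp.equivFunOnFinite.symm μ - b) ?_ ?_ ?_ ?_
  · intro b hb
    rw [mem_BX] at hb ⊢
    refine ⟨fun j => Nat.sub_le _ _, ?_⟩
    rw [hsub b hb.1, hb.2]
    omega
  · intro b hb
    rw [mem_BX] at hb ⊢
    refine ⟨fun j => Nat.sub_le _ _, ?_⟩
    rw [hsub b hb.1, hb.2]
    omega
  · intro b hb
    rw [mem_BX] at hb
    ext j
    exact Nat.sub_sub_self (hb.1 j)
  · intro b hb
    rw [mem_BX] at hb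
    ext j
    exact Nat.sub_sub_self (hb.1 j)

/-- The polynomial with prescribed coefficients. -/
noncomputable def poly (B : Finset (Fin s →₀ ℕ)) : ({b // b ∈ B} → K) →ₗ[K] MvPolynomial (Fin s) K where
  toFun f := ∑ b : {b // b ∈ B}, monomial b.1 (f b)
  map_add' f g := by
    simp only [Pi.add_apply, map_add, Finset.sum_add_distrib]
  map_smul' a f := by
    simp only [Pi.smul_apply, smul_eq_mul, RingHom.id_apply, Finset.smul_sum, smul_monomial]

theorem coeff_poly {B : Finset (Fin s →₀ ℕ)} (f : {b // b ∈ B} → K) (b : {b // b ∈ B}) :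
    coeff b.1 (poly B f) = f b := by
  simp only [poly, LinearMap.coe_mk, AddHom.coe_mk, coeff_sum, coeff_monomial]
  rw [Finset.sum_eq_single b]
  · simp
  · intro b' _ hne
    rw [if_neg]
    exact fun h => hne (Subtype.ext h)
  · intro h
    exact absurd (Finset.mem_univ _) h

theorem poly_homogeneous {d : ℕ} (f : {b // b ∈ BX μ d} → K) :
    (poly (BX μ d) f).IsHomogeneous d := by
  simp only [poly, LinearMap.coe_mk, AddHom.coe_mk]
  refine IsHomogeneous.sum _ _ _ fun b _ => ?_
  refine isHomogeneous_monomial _ ?_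
  rw [Finsupp.degree_eq_sum]
  exact (mem_BX.mp b.2).2

theorem lin_homogeneous (c : Fin s → K) : (lin c).IsHomogeneous 1 := by
  refine IsHomogeneous.sum _ _ _ fun j _ => ?_
  have := (isHomogeneous_C (Fin s) (c j)).mul (isHomogeneous_X K j)
  simpa using this

theorem prod_homogeneous (cs : List (Fin s → K)) :
    ((cs.map lin).prod : MvPolynomial (Fin s) K).IsHomogeneous cs.length := by
  induction cs with
  | nil => simpa using isHomogeneous_one (Fin s) K
  | cons c cs ih =>
    rw [List.map_cons, List.prod_cons, List.length_cons, add_comm]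
    exact (lin_homogeneous c).mul ih

/-- Surjectivity between complementary degrees, for a list of positive forms. -/
theorem mhl_surj_list {i : ℕ} (cs : List (Fin s → K)) (hc : ∀ c ∈ cs, ∀ j, 0 < c j)
    (h : 2 * i + cs.length = ∑ j, μ j) (b : Fin s →₀ ℕ) (hb : ∀ j, b j ≤ μ j)
    (hd : ∑ j, b j = i + cs.length) : ∃ g : MvPolynomial (Fin s) K, g.IsHomogeneous i ∧
      ∀ b' : Fin s →₀ ℕ, (∀ j, b' j ≤ μ j) →
        coeff b' (monomial b 1 - g * (cs.map lin).prod) = 0 := by
  let T : ({b // b ∈ BX μ i} → K) →ₗ[K] ({b // b ∈ BX μ (i + cs.length)} → K) :=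
    { toFun := fun f b' => coeff b'.1 (poly (BX μ i) f * (cs.map lin).prod)
      map_add' := by
        intro f g
        funext b'
        simp [add_mul]
      map_smul' := by
        intro a f
        funext b'
        simp }
  have hinj : Function.Injective T := by
    rw [← LinearMap.ker_eq_bot, LinearMap.ker_eq_bot']
    intro f hf
    have h1 := mhl_inj (μ := μ) cs hc h.le (poly (BX μ i) f) (poly_homogeneous f) (by
      intro b' hb'
      by_cases hdeg : ∑ j, b' j = i + cs.length
      · exact congrFun hf ⟨b', mem_BX.mpr ⟨hb', hdeg⟩⟩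
      · refine ((poly_homogeneous f).mul (prod_homogeneous cs)).coeff_eq_zero ?_
        rw [Finsupp.degree_eq_sum]
        exact hdeg)
    funext b'
    rw [← coeff_poly f b']
    exact h1 _ (mem_BX.mp b'.2).1
  have hfin : Module.finrank K ({b // b ∈ BX μ i} → K)
      = Module.finrank K ({b // b ∈ BX μ (i + cs.length)} → K) := by
    rw [Module.finrank_fintype_fun_eq_card, Module.finrank_fintype_fun_eq_card, Fintype.card_coe,
      Fintype.card_coe, card_BX h]
  have hsurj : Function.Surjective T :=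
    (LinearMap.injective_iff_surjective_of_finrank_eq_finrank hfin).mp hinj
  obtain ⟨f, hf⟩ := hsurj (Pi.single ⟨b, mem_BX.mpr ⟨hb, hd⟩⟩ 1)
  refine ⟨poly (BX μ i) f, poly_homogeneous f, ?_⟩
  intro b' hb'
  rw [coeff_sub, coeff_monomial, sub_eq_zero]
  by_cases hdeg : ∑ j, b' j = i + cs.length
  · have h1 := congrFun hf ⟨b', mem_BX.mpr ⟨hb', hdeg⟩⟩
    have h2 : T f ⟨b', mem_BX.mpr ⟨hb', hdeg⟩⟩
        = coeff b' (poly (BX μ i) f * (cs.map lin).prod) := rfl
    rw [← h2, h1, Pi.single_apply]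
    simp only [Subtype.mk.injEq, eq_comm]
  · rw [((poly_homogeneous f).mul (prod_homogeneous cs)).coeff_eq_zero, if_neg]
    · rintro rfl
      exact hdeg hd
    · rw [Finsupp.degree_eq_sum]
      exact hdeg

theorem mhl_surj {s : ℕ} (μ : Fin s → ℕ) {i m : ℕ} (h : 2 * i + m = ∑ j, μ j)
    (c : Fin m → Fin s → ℚ) (hc : ∀ t j, 0 < c t j) (b : Fin s →₀ ℕ) (hb : ∀ j, b j ≤ μ j)
    (hd : ∑ j, b j = i + m) : ∃ g : MvPolynomial (Fin s) ℚ, g.IsHomogeneous i ∧
      ∀ b' : Fin s →₀ ℕ, (∀ j, b' j ≤ μ j) → MvPolynomial.coeff b'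
        (MvPolynomial.monomial b 1 -
          g * ∏ t, ∑ j, MvPolynomial.C (c t j) * MvPolynomial.X j) = 0 := by
  have hlen : (List.ofFn c).length = m := List.length_ofFn
  obtain ⟨g, hg, hgb⟩ := mhl_surj_list (μ := μ) (i := i) (List.ofFn c) (by
      intro d hd' j
      obtain ⟨t, rfl⟩ := (List.mem_ofFn' _ _).mp hd'
      exact hc t j) (by rw [hlen]; exact h) b hb (by rw [hlen]; exact hd)
  refine ⟨g, hg, ?_⟩
  intro b' hb'
  have h1 := hgb b' hb'
  rw [List.map_ofFn, List.prod_ofFn] at h1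
  exact h1

end LibMHL5
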