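import Mathlib

/-! Mixed hard Lefschetz and Hodge-Riemann for squarefree algebras: basic operators. -/

set_option linter.unusedSectionVars false

namespace LibMHL5

variable {ι : Type*} [DecidableEq ι] {K : Type*} [Field K]

/-- Multiplication by the form `∑ c_j x_j` on functions of finite sets. -/
def L (c : ι → K) : Module.End K (Finset ι → K) where
  toFun u S := ∑ j ∈ S, c j * u (S.erase j)
  map_add' u v := by
    funext S
    simp [mul_add, Finset.sum_add_distrib]
  map_smul' a u := by
    funext S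
    simp only [Pi.smul_apply, smul_eq_mul, RingHom.id_apply, Finset.mul_sum]
    refine Finset.sum_congr rfl fun j _ => ?_
    ring

theorem L_apply (c : ι → K) (u : Finset ι → K) (S : Finset ι) :
    L c u S = ∑ j ∈ S, c j * u (S.erase j) := rfl

theorem L_comm (c d : ι → K) : L c * L d = L d * L c := by
  apply LinearMap.ext
  intro u
  funext S
  simp only [Module.End.mul_apply, L_apply, Finset.mul_sum]
  rw [Finset.sum_sigma', Finset.sum_sigma']
  refine Finset.sum_bij' (fun p _ => ⟨p.2, p.1⟩) (fun p _ => ⟨p.2, p.1⟩) ?_ ?_ ?_ ?_ ?_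
  · rintro ⟨a, b⟩ h
    simp only [Finset.mem_sigma, Finset.mem_erase] at h ⊢
    exact ⟨h.2.2, fun h' => h.2.1 h'.symm, h.1⟩
  · rintro ⟨a, b⟩ h
    simp only [Finset.mem_sigma, Finset.mem_erase] at h ⊢
    exact ⟨h.2.2, fun h' => h.2.1 h'.symm, h.1⟩
  · intros; rfl
  · intros; rfl
  · rintro ⟨a, b⟩ h
    simp only
    rw [Finset.erase_right_comm]
    ring

/-- The product of the operators of a list of forms. -/
def P (cs : List (ι → K)) : Module.End K (Finset ι → K) := (cs.map L).prod

@[simp] theorem P_nil : P ([] : List (ι → K)) = 1 := rfl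

@[simp] theorem P_cons (c : ι → K) (cs : List (ι → K)) : P (c :: cs) = L c * P cs := by
  simp [P]

theorem P_append (cs ds : List (ι → K)) : P (cs ++ ds) = P cs * P ds := by
  simp [P]

theorem L_P_comm (c : ι → K) (cs : List (ι → K)) : L c * P cs = P cs * L c := by
  induction cs with
  | nil => simp
  | cons d cs ih =>
    rw [P_cons, ← mul_assoc, L_comm c d, mul_assoc, ih, mul_assoc]

/-- Homogeneous of degree `i`. -/
def Hom (i : ℕ) (u : Finset ι → K) : Prop := ∀ S, S.card ≠ i → u S = 0

/-- Vanishing on all subsets of `E`. -/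
def Z (E : Finset ι) (u : Finset ι → K) : Prop := ∀ S ⊆ E, u S = 0

theorem Hom.L {i : ℕ} {u : Finset ι → K} (h : Hom i u) (c : ι → K) : Hom (i + 1) (L c u) := by
  intro S hS
  rw [L_apply]
  refine Finset.sum_eq_zero fun j hj => ?_
  rw [h _, mul_zero]
  rw [Finset.card_erase_of_mem hj]
  have := Finset.card_pos.mpr ⟨j, hj⟩
  omega

theorem Hom.P {i : ℕ} {u : Finset ι → K} (h : Hom i u) (cs : List (ι → K)) :
    Hom (i + cs.length) (P cs u) := by
  induction cs with
  | nil => simpa using h
  | cons c cs ih =>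
    rw [P_cons, Module.End.mul_apply, List.length_cons, ← add_assoc]
    exact ih.L c

theorem Z.mono {E F : Finset ι} (h : E ⊆ F) {u : Finset ι → K} (hu : Z F u) : Z E u :=
  fun S hS => hu S (hS.trans h)

theorem Z.L {E : Finset ι} {u : Finset ι → K} (h : Z E u) (c : ι → K) : Z E (L c u) := by
  intro S hS
  rw [L_apply]
  refine Finset.sum_eq_zero fun j _ => ?_
  rw [h _ ((Finset.erase_subset _ _).trans hS), mul_zero]

theorem Z.P {E : Finset ι} {u : Finset ι → K} (h : Z E u) (cs : List (ι → K)) :
    Z E (P cs u) := by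
  induction cs with
  | nil => simpa using h
  | cons c cs ih =>
    rw [P_cons, Module.End.mul_apply]
    exact ih.L c

theorem Z.sub_iff {E : Finset ι} {u v : Finset ι → K} : Z E (u - v) ↔ ∀ S ⊆ E, u S = v S := by
  constructor
  · intro h S hS
    have := h S hS
    simpa [sub_eq_zero] using this
  · intro h S hS
    simp [h S hS]

/-- The pairing on subsets of `E`. -/
def pr (E : Finset ι) (u v : Finset ι → K) : K := ∑ T ∈ E.powerset, u T * v (E \ T)

theorem pr_symm (E : Finset ι) (u v : Finset ι → K) : pr E u v = pr E v u := by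
  unfold pr
  refine Finset.sum_bij' (fun T _ => E \ T) (fun T _ => E \ T) ?_ ?_ ?_ ?_ ?_
  · intro T _
    exact Finset.mem_powerset.mpr Finset.sdiff_subset
  · intro T _
    exact Finset.mem_powerset.mpr Finset.sdiff_subset
  · intro T hT
    exact Finset.sdiff_sdiff_eq_self (Finset.mem_powerset.mp hT)
  · intro T hT
    exact Finset.sdiff_sdiff_eq_self (Finset.mem_powerset.mp hT)
  · intro T hT
    rw [Finset.sdiff_sdiff_eq_self (Finset.mem_powerset.mp hT)]
    ring

theorem pr_eq_zero {E : Finset ι} {u : Finset ι → K} (h : Z E u) (v : Finset ι → K) :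
    pr E u v = 0 := by
  unfold pr
  refine Finset.sum_eq_zero fun T hT => ?_
  rw [h T (Finset.mem_powerset.mp hT), zero_mul]

theorem pr_eq_zero' {E : Finset ι} {v : Finset ι → K} (h : Z E v) (u : Finset ι → K) :
    pr E u v = 0 := by
  rw [pr_symm]
  exact pr_eq_zero h u

theorem pr_add_left (E : Finset ι) (u u' v : Finset ι → K) :
    pr E (u + u') v = pr E u v + pr E u' v := by
  simp [pr, add_mul, Finset.sum_add_distrib]

theorem pr_smul_left (E : Finset ι) (a : K) (u v : Finset ι → K) :
    pr E (a • u) v = a * pr E u v := by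
  simp [pr, Finset.mul_sum, mul_assoc]

theorem pr_add_right (E : Finset ι) (u v v' : Finset ι → K) :
    pr E u (v + v') = pr E u v + pr E u v' := by
  simp [pr, mul_add, Finset.sum_add_distrib]

theorem pr_smul_right (E : Finset ι) (a : K) (u v : Finset ι → K) :
    pr E u (a • v) = a * pr E u v := by
  rw [pr_symm, pr_smul_left, pr_symm]

/-- The pairing with a form distributes over the elements. -/
theorem pr_L_left (E : Finset ι) (c : ι → K) (u v : Finset ι → K) :
    pr E (L c u) v = ∑ j ∈ E, c j * pr (E.erase j) u v := by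
  unfold pr
  simp only [L_apply, Finset.sum_mul, Finset.mul_sum]
  rw [Finset.sum_sigma', Finset.sum_sigma']
  refine Finset.sum_bij' (fun p _ => ⟨p.2, p.1.erase p.2⟩) (fun p _ => ⟨insert p.1 p.2, p.1⟩)
    ?_ ?_ ?_ ?_ ?_
  · rintro ⟨T, j⟩ h
    simp only [Finset.mem_sigma, Finset.mem_powerset] at h ⊢
    exact ⟨h.1 h.2, Finset.erase_subset_erase _ h.1⟩
  · rintro ⟨j, T⟩ h
    simp only [Finset.mem_sigma, Finset.mem_powerset] at h ⊢
    refine ⟨?_, Finset.mem_insert_self _ _⟩
    refine Finset.insert_subset h.1 (h.2.trans (Finset.erase_subset _ _))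
  · rintro ⟨T, j⟩ h
    simp only [Finset.mem_sigma, Finset.mem_powerset] at h ⊢
    rw [Finset.insert_erase h.2]
  · rintro ⟨j, T⟩ h
    simp only [Finset.mem_sigma, Finset.mem_powerset] at h ⊢
    rw [Finset.erase_insert]
    intro hj
    exact (Finset.mem_erase.mp (h.2 hj)).1 rfl
  · rintro ⟨T, j⟩ h
    simp only [Finset.mem_sigma, Finset.mem_powerset] at h ⊢
    have h1 : E.erase j \ T.erase j = E \ T := by
      ext k
      simp only [Finset.mem_sdiff, Finset.mem_erase]
      constructor
      · rintro ⟨⟨h1, h2⟩, h3⟩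
        exact ⟨h2, fun h4 => h3 ⟨h1, h4⟩⟩
      · rintro ⟨h1, h2⟩
        refine ⟨⟨?_, h1⟩, fun h3 => h2 h3.2⟩
        rintro rfl
        exact h2 h.2
    rw [h1]
    ring

theorem pr_L (E : Finset ι) (c : ι → K) (u v : Finset ι → K) :
    pr E (L c u) v = pr E u (L c v) := by
  rw [pr_L_left, pr_symm E u, pr_L_left]
  refine Finset.sum_congr rfl fun j _ => ?_
  rw [pr_symm]

theorem pr_P (E : Finset ι) (cs : List (ι → K)) (u v : Finset ι → K) :
    pr E (P cs u) v = pr E u (P cs v) := by
  induction cs generalizing u v with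
  | nil => simp
  | cons c cs ih =>
    rw [P_cons, Module.End.mul_apply, pr_L, ih, ← Module.End.mul_apply, ← L_P_comm]

end LibMHL5
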