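import Mathlib

/-! Semidefinite subspaces of opposite sign for a nondegenerate symmetric form. -/

set_option linter.unusedSectionVars false

namespace LibMHL5

variable {K : Type*} [Field K] [LinearOrder K] [IsStrictOrderedRing K]
variable {V : Type*} [AddCommGroup V] [Module K V]

/-- A semidefinite symmetric form vanishes at `(w, p)` if it vanishes at `(w, w)`. -/
theorem semidef_zero (B : LinearMap.BilinForm K V) (hs : ∀ x y, B x y = B y x)
    (W : Submodule K V) (hW : ∀ p ∈ W, 0 ≤ B p p) {w : V} (hw : w ∈ W) (h0 : B w w = 0)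
    {p : V} (hp : p ∈ W) : B w p = 0 := by
  by_contra hne
  have key : ∀ t : K, 0 ≤ 2 * t * B w p + B p p := by
    intro t
    have := hW (t • w + p) (W.add_mem (W.smul_mem t hw) hp)
    simp only [map_add, map_smul, LinearMap.add_apply, LinearMap.smul_apply, smul_eq_mul, h0,
      hs p w] at this
    linarith
  have h2 : (2 : K) * B w p ≠ 0 := mul_ne_zero two_ne_zero hne
  have := key (-(B p p + 1) / (2 * B w p))
  have h3 : 2 * (-(B p p + 1) / (2 * B w p)) * B w p = -(B p p + 1) := by
    field_simp
  rw [h3] at this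
  linarith

theorem finrank_semidef_le [FiniteDimensional K V] (B : LinearMap.BilinForm K V)
    (hs : ∀ x y, B x y = B y x) (hn : ∀ x, (∀ y, B x y = 0) → x = 0)
    (P M : Submodule K V) (hP : ∀ p ∈ P, 0 ≤ B p p) (hM : ∀ p ∈ M, B p p ≤ 0) :
    Module.finrank K P + Module.finrank K M ≤ Module.finrank K V := by
  have hrefl : B.IsRefl := fun x y h => by rw [hs, h]
  have hnd : B.Nondegenerate := by
    constructor
    · intro x hx
      exact hn x hx
    · intro x hx
      refine hn x fun y => ?_
      rw [hs]
      exact hx y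
  have h1 : Module.finrank K ↥(P ⊔ M) + Module.finrank K ↥(P ⊓ M)
      = Module.finrank K P + Module.finrank K M := Submodule.finrank_sup_add_finrank_inf_eq P M
  have h2 : Module.finrank K (B.orthogonal (P ⊔ M)) =
      Module.finrank K V - Module.finrank K ↥(P ⊔ M) :=
    LinearMap.BilinForm.finrank_orthogonal hnd (P ⊔ M)
  have h3 : P ⊓ M ≤ B.orthogonal (P ⊔ M) := by
    intro w hw
    have hwP : w ∈ P := hw.1
    have hwM : w ∈ M := hw.2
    have h0 : B w w = 0 := le_antisymm (hM w hwM) (hP w hwP)
    rw [LinearMap.BilinForm.mem_orthogonal_iff]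
    intro n hn'
    rw [Submodule.mem_sup] at hn'
    obtain ⟨p, hp, m, hm, rfl⟩ := hn'
    have e1 : B w p = 0 := semidef_zero B hs P hP hwP h0 hp
    have e2 : (-B) w m = 0 := by
      refine semidef_zero (-B) (fun x y => ?_) M (fun p hp => ?_) hwM ?_ hm
      · simp [hs x y]
      · simpa using hM p hp
      · simp [h0]
    have e3 : B w m = 0 := by simpa using e2
    show B (p + m) w = 0
    rw [hs, map_add, e1, e3, add_zero]
  have h4 : Module.finrank K ↥(P ⊓ M) ≤ Module.finrank K (B.orthogonal (P ⊔ M)) :=
    Submodule.finrank_mono h3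
  have h5 : Module.finrank K ↥(P ⊔ M) ≤ Module.finrank K V := Submodule.finrank_le _
  omega

end LibMHL5
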