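import Pool.Agent.LibMHL5.Basic
import Pool.Agent.LibMHL5.Semidef

/-! Mixed hard Lefschetz and mixed Hodge-Riemann relations for squarefree algebras. -/

set_option linter.unusedSectionVars false

namespace LibMHL5

variable {ι : Type*} [DecidableEq ι] {K : Type*} [Field K] [LinearOrder K] [IsStrictOrderedRing K]

def HL (K : Type*) [Field K] [LinearOrder K] [IsStrictOrderedRing K] (E : Finset ι) : Prop :=
  ∀ (i : ℕ) (cs : List (ι → K)), (∀ c ∈ cs, ∀ j, 0 < c j) →
  2 * i + cs.length = E.card → ∀ u : Finset ι → K, Hom i u → Z E (P cs u) → Z E u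

def HR (K : Type*) [Field K] [LinearOrder K] [IsStrictOrderedRing K] (E : Finset ι) : Prop :=
  ∀ (i : ℕ) (cs : List (ι → K)) (c0 : ι → K), (∀ c ∈ cs, ∀ j, 0 < c j) →
  (∀ j, 0 < c0 j) → 2 * i + cs.length = E.card → ∀ u : Finset ι → K, Hom i u →
  Z E (L c0 (P cs u)) → ¬ Z E u → 0 < (-1) ^ i * pr E (P cs u) u

theorem HL_of_HR (E : Finset ι) (h : ∀ j ∈ E, HR K (E.erase j)) : HL K E := by
  intro i cs hpos hcard u hu hz
  cases cs with
  | nil => simpa using hz
  | cons c cs =>
    have hcpos : ∀ j, 0 < c j := hpos c (by simp)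
    have hpos' : ∀ d ∈ cs, ∀ j, 0 < d j := fun d hd => hpos d (by simp [hd])
    have hcard' : ∀ j ∈ E, 2 * i + cs.length = (E.erase j).card := by
      intro j hj
      rw [Finset.card_erase_of_mem hj]
      simp only [List.length_cons] at hcard
      omega
    have hzero : ∑ j ∈ E, c j * ((-1) ^ i * pr (E.erase j) (P cs u) u) = 0 := by
      have h0 : pr E (P (c :: cs) u) u = 0 := pr_eq_zero hz u
      rw [P_cons, Module.End.mul_apply, pr_L_left] at h0
      have : ∑ j ∈ E, c j * ((-1) ^ i * pr (E.erase j) (P cs u) u)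
          = (-1) ^ i * ∑ j ∈ E, c j * pr (E.erase j) (P cs u) u := by
        rw [Finset.mul_sum]
        exact Finset.sum_congr rfl fun j _ => by ring
      rw [this, h0, mul_zero]
    have hzj : ∀ j ∈ E, Z (E.erase j) (L c (P cs u)) := fun j _ =>
      Z.mono (Finset.erase_subset _ _) hz
    have hnn : ∀ j ∈ E, 0 ≤ c j * ((-1) ^ i * pr (E.erase j) (P cs u) u) := by
      intro j hj
      refine mul_nonneg (hcpos j).le ?_
      by_cases hZ : Z (E.erase j) u
      · rw [pr_eq_zero' hZ, mul_zero]
      · exact (h j hj i cs c hpos' hcpos (hcard' j hj) u hu (hzj j hj) hZ).le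
    have hall : ∀ j ∈ E, Z (E.erase j) u := by
      intro j hj
      by_contra hZ
      have h1 := h j hj i cs c hpos' hcpos (hcard' j hj) u hu (hzj j hj) hZ
      have h2 := (Finset.sum_eq_zero_iff_of_nonneg hnn).mp hzero j hj
      have h3 := mul_pos (hcpos j) h1
      exact h3.ne' h2
    intro S hS
    by_cases hSi : S.card = i
    · have hlt : S.card < E.card := by
        rw [hSi, ← hcard]
        simp only [List.length_cons]
        omega
      obtain ⟨j, hj, hjS⟩ := Finset.exists_mem_notMem_of_card_lt_card hlt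
      exact hall j hj S (Finset.subset_erase.mpr ⟨hS, hjS⟩)
    · exact hu S hSi

/-- The recursive form of the derivative of a product of forms at `x`. -/
def Der (x : ι) : List (ι → K) → (Finset ι → K) → (Finset ι → K)
  | [], _ => 0
  | c :: cs, u => c x • P cs u + L c (Der x cs u)

theorem L_insert (x : ι) (c : ι → K) (u : Finset ι → K) {T : Finset ι} (hx : x ∉ T) :
    L c u (insert x T) = c x * u T + L c (fun S => u (insert x S)) T := by
  rw [L_apply, Finset.sum_insert hx, Finset.erase_insert hx, L_apply]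
  congr 1
  refine Finset.sum_congr rfl fun j hj => ?_
  rw [Finset.erase_insert_of_ne]
  rintro rfl
  exact hx hj

theorem P_insert (x : ι) (cs : List (ι → K)) (u : Finset ι → K) {T : Finset ι} (hx : x ∉ T) :
    P cs u (insert x T) = Der x cs u T + P cs (fun S => u (insert x S)) T := by
  induction cs generalizing T with
  | nil => simp [Der]
  | cons c cs ih =>
    rw [P_cons, Module.End.mul_apply, Module.End.mul_apply, L_insert x c _ hx, Der]
    simp only [Pi.add_apply, Pi.smul_apply, smul_eq_mul]
    rw [add_assoc]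
    congr 1
    rw [L_apply, L_apply, L_apply, ← Finset.sum_add_distrib]
    refine Finset.sum_congr rfl fun j hj => ?_
    rw [ih (fun h => hx (Finset.mem_of_mem_erase h))]
    ring

theorem pr_eq_Der {E : Finset ι} {x : ι} (hx : x ∈ E) (cs : List (ι → K)) (u : Finset ι → K)
    (hz : Z (E.erase x) (P cs u)) : pr E (P cs u) u = pr (E.erase x) (Der x cs u) u := by
  have hxE : x ∉ E.erase x := Finset.notMem_erase x E
  have h1 : pr E (P cs u) u = ∑ T ∈ (E.erase x).powerset,
      P cs u (insert x T) * u ((E.erase x) \ T) := by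
    unfold pr
    conv_lhs => rw [← Finset.insert_erase hx]
    rw [Finset.sum_powerset_insert hxE]
    rw [Finset.sum_eq_zero, zero_add]
    · refine Finset.sum_congr rfl fun T _ => ?_
      congr 2
      ext k
      simp only [Finset.mem_sdiff, Finset.mem_insert, Finset.mem_erase]
      constructor
      · rintro ⟨h1, h2⟩
        push Not at h2
        refine ⟨⟨h2.1, ?_⟩, h2.2⟩
        rcases h1 with h1 | h1
        · exact absurd h1 h2.1
        · exact h1.2
      · rintro ⟨h1, h2⟩
        refine ⟨Or.inr h1, ?_⟩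
        push Not
        exact ⟨h1.1, h2⟩
    · intro T hT
      rw [hz T (Finset.mem_powerset.mp hT), zero_mul]
  have h2 : pr (E.erase x) (P cs (fun S => u (insert x S))) u = 0 := by
    rw [pr_P]
    exact pr_eq_zero' hz _
  rw [h1]
  have h3 : pr (E.erase x) (Der x cs u) u
      = pr (E.erase x) (Der x cs u) u + pr (E.erase x) (P cs (fun S => u (insert x S))) u := by
    rw [h2, add_zero]
  rw [h3, ← pr_add_left]
  unfold pr
  refine Finset.sum_congr rfl fun T hT => ?_
  rw [P_insert x cs u (fun h => hxE (Finset.mem_powerset.mp hT h))]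
  rfl

theorem Der_sign {E : Finset ι} (hHR : HR K E) (x : ι) (i : ℕ) (u : Finset ι → K)
    (hu : Hom i u) (cs : List (ι → K)) : ∀ (pre : List (ι → K)),
    (∀ c ∈ pre ++ cs, ∀ j, 0 < c j) → 2 * i + (pre ++ cs).length = E.card + 1 →
    Z E (P (pre ++ cs) u) → 0 ≤ (-1) ^ i * pr E (P pre (Der x cs u)) u := by
  induction cs with
  | nil =>
    intro pre _ _ _
    simp only [Der, map_zero]
    have h0 : pr E (0 : Finset ι → K) u = 0 := pr_eq_zero (fun S _ => rfl) u
    rw [h0, mul_zero]
  | cons c cs ih =>
    intro pre hpos hcard hz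
    have hcpos : ∀ j, 0 < c j := hpos c (by simp)
    have hpos' : ∀ d ∈ pre ++ cs, ∀ j, 0 < d j := by
      intro d hd
      refine hpos d ?_
      simp only [List.mem_append, List.mem_cons] at hd ⊢
      tauto
    have hcard' : 2 * i + (pre ++ cs).length = E.card := by
      simp only [List.length_append, List.length_cons] at hcard ⊢
      omega
    have hzL : Z E (L c (P (pre ++ cs) u)) := by
      have : L c (P (pre ++ cs) u) = P (pre ++ c :: cs) u := by
        rw [P_append, P_append, P_cons, ← Module.End.mul_apply, ← mul_assoc, ← mul_assoc, L_P_comm]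
      rw [this]
      exact hz
    have e1 : P pre (Der x (c :: cs) u) = c x • P (pre ++ cs) u + P (pre ++ [c]) (Der x cs u) := by
      rw [Der, map_add, map_smul, P_append, P_append, P_cons, P_nil, mul_one]
      rfl
    rw [e1, pr_add_left, pr_smul_left, mul_add]
    refine add_nonneg ?_ ?_
    · by_cases hZ : Z E u
      · rw [pr_eq_zero' hZ, mul_zero, mul_zero]
      · have := hHR i (pre ++ cs) c hpos' hcpos hcard' u hu hzL hZ
        have h2 := mul_pos (hcpos x) this
        have h3 : (-1) ^ i * (c x * pr E (P (pre ++ cs) u) u)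
            = c x * ((-1) ^ i * pr E (P (pre ++ cs) u) u) := by ring
        rw [h3]
        exact h2.le
    · refine ih (pre ++ [c]) ?_ ?_ ?_
      · simpa using hpos
      · simpa using hcard
      · simpa using hz

/-- The space of functions on the `i`-subsets of `E`. -/
abbrev W (K : Type*) (E : Finset ι) (i : ℕ) : Type _ := {S // S ∈ E.powersetCard i} → K

def ext (E : Finset ι) (i : ℕ) : W K E i →ₗ[K] (Finset ι → K) where
  toFun f S := if h : S ∈ E.powersetCard i then f ⟨S, h⟩ else 0
  map_add' f g := by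
    funext S
    by_cases h : S ∈ E.powersetCard i
    · simp only [h, dif_pos, Pi.add_apply]
    · simp only [h, dif_neg, not_false_eq_true, Pi.add_apply, add_zero]
  map_smul' a f := by
    funext S
    by_cases h : S ∈ E.powersetCard i
    · simp only [h, dif_pos, Pi.smul_apply, RingHom.id_apply]
    · simp only [h, dif_neg, not_false_eq_true, Pi.smul_apply, RingHom.id_apply, smul_zero]

def rs (E : Finset ι) (i : ℕ) : (Finset ι → K) →ₗ[K] W K E i where
  toFun u S := u S.1
  map_add' _ _ := rfl
  map_smul' _ _ := rfl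

theorem ext_mem {E : Finset ι} {i : ℕ} (f : W K E i) (S : {S // S ∈ E.powersetCard i}) :
    ext E i f S.1 = f S := by
  simp only [ext, LinearMap.coe_mk, AddHom.coe_mk]
  rw [dif_pos S.2]

theorem rs_ext {E : Finset ι} {i : ℕ} (f : W K E i) : rs E i (ext E i f) = f := by
  funext S
  exact ext_mem f S

theorem Hom_ext {E : Finset ι} {i : ℕ} (f : W K E i) : Hom i (ext E i f) := by
  intro S hS
  simp only [ext, LinearMap.coe_mk, AddHom.coe_mk]
  rw [dif_neg]
  intro h
  exact hS (Finset.mem_powersetCard.mp h).2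

theorem ext_rs {E : Finset ι} {i : ℕ} {u : Finset ι → K} (hu : Hom i u) :
    Z E (u - ext E i (rs E i u)) := by
  rw [Z.sub_iff]
  intro S hS
  by_cases h : S.card = i
  · have := ext_mem (rs E i u) ⟨S, Finset.mem_powersetCard.mpr ⟨hS, h⟩⟩
    rw [this]
    rfl
  · rw [hu S h, Hom_ext _ S h]

theorem rs_eq_zero {E : Finset ι} {i : ℕ} {u : Finset ι → K} (hu : Hom i u) :
    rs E i u = 0 ↔ Z E u := by
  constructor
  · intro h S hS
    by_cases hc : S.card = i
    · exact congrFun h ⟨S, Finset.mem_powersetCard.mpr ⟨hS, hc⟩⟩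
    · exact hu S hc
  · intro h
    funext S
    exact h S.1 (Finset.mem_powersetCard.mp S.2).1

theorem Z_ext {E : Finset ι} {i : ℕ} (f : W K E i) : Z E (ext E i f) ↔ f = 0 := by
  rw [← rs_eq_zero (Hom_ext f), rs_ext]

theorem pr_congr {E : Finset ι} {u u' v v' : Finset ι → K} (hu : Z E (u - u'))
    (hv : Z E (v - v')) : pr E u v = pr E u' v' := by
  unfold pr
  refine Finset.sum_congr rfl fun T hT => ?_
  rw [Z.sub_iff.mp hu T (Finset.mem_powerset.mp hT), Z.sub_iff.mp hv _ Finset.sdiff_subset]

theorem finrank_W (E : Finset ι) (i : ℕ) : Module.finrank K (W K E i) = E.card.choose i := by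
  rw [Module.finrank_fintype_fun_eq_card, Fintype.card_coe, Finset.card_powersetCard]

/-- The form `(-1)^i ⟨ℓ_1 ⋯ ℓ_c f, g⟩`. -/
def Q (E : Finset ι) (i : ℕ) (cs : List (ι → K)) : LinearMap.BilinForm K (W K E i) :=
  LinearMap.mk₂ K (fun f g => (-1) ^ i * pr E (P cs (ext E i f)) (ext E i g))
    (fun f f' g => by rw [map_add, map_add, pr_add_left]; ring)
    (fun a f g => by rw [map_smul, map_smul, pr_smul_left, smul_eq_mul]; ring)
    (fun f g g' => by rw [map_add, pr_add_right]; ring)
    (fun a f g => by rw [map_smul, pr_smul_right, smul_eq_mul]; ring)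

theorem Q_apply (E : Finset ι) (i : ℕ) (cs : List (ι → K)) (f g : W K E i) :
    Q E i cs f g = (-1) ^ i * pr E (P cs (ext E i f)) (ext E i g) := rfl

theorem Q_symm (E : Finset ι) (i : ℕ) (cs : List (ι → K)) (f g : W K E i) :
    Q E i cs f g = Q E i cs g f := by
  rw [Q_apply, Q_apply, pr_P, pr_symm]

theorem Q_nondeg {E : Finset ι} (hHL : HL K E) (i : ℕ) (cs : List (ι → K))
    (hpos : ∀ c ∈ cs, ∀ j, 0 < c j) (hcard : 2 * i + cs.length = E.card) (f : W K E i)
    (h : ∀ g, Q E i cs f g = 0) : f = 0 := by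
  rw [← Z_ext]
  refine hHL i cs hpos hcard _ (Hom_ext f) ?_
  intro S hS
  by_cases hc : S.card = i + cs.length
  · -- test with the indicator of `E \ S`
    have hT : E \ S ∈ E.powersetCard i := by
      rw [Finset.mem_powersetCard]
      refine ⟨Finset.sdiff_subset, ?_⟩
      rw [Finset.card_sdiff_of_subset hS]
      omega
    have h1 := h (Pi.single ⟨E \ S, hT⟩ 1)
    rw [Q_apply] at h1
    have h2 : pr E (P cs (ext E i f)) (ext E i (Pi.single ⟨E \ S, hT⟩ 1))
        = P cs (ext E i f) S := by
      unfold pr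
      rw [Finset.sum_eq_single S]
      · rw [ext_mem _ ⟨E \ S, hT⟩, Pi.single_eq_same, mul_one]
      · intro T hTE hne
        by_cases hT' : E \ T ∈ E.powersetCard i
        · rw [ext_mem _ ⟨E \ T, hT'⟩, Pi.single_eq_of_ne, mul_zero]
          intro he
          apply hne
          have he' : E \ T = E \ S := congrArg Subtype.val he
          rw [← Finset.sdiff_sdiff_eq_self (Finset.mem_powerset.mp hTE), he',
            Finset.sdiff_sdiff_eq_self hS]
        · simp only [ext, LinearMap.coe_mk, AddHom.coe_mk]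
          rw [dif_neg hT', mul_zero]
      · intro h
        exact absurd (Finset.mem_powerset.mpr hS) h
    rw [h2] at h1
    have h3 : ((-1 : K) ^ i) ≠ 0 := pow_ne_zero _ (neg_ne_zero.mpr one_ne_zero)
    exact (mul_eq_zero.mp h1).resolve_left h3
  · exact (Hom_ext f).P cs S hc

/-- The semidefinite subspace attached to the element `x`. -/
def kerS (E : Finset ι) (x : ι) (i : ℕ) (cs : List (ι → K)) : Submodule K (W K E i) :=
  LinearMap.ker ((rs (E.erase x) (i + cs.length)) ∘ₗ (P cs) ∘ₗ (ext E i))

theorem mem_kerS {E : Finset ι} {x : ι} {i : ℕ} {cs : List (ι → K)} {f : W K E i} :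
    f ∈ kerS E x i cs ↔ Z (E.erase x) (P cs (ext E i f)) := by
  rw [kerS, LinearMap.mem_ker]
  exact rs_eq_zero ((Hom_ext f).P cs)

theorem finrank_kerS {E : Finset ι} {x : ι} (hx : x ∈ E) (i : ℕ) (cs : List (ι → K))
    (hcard : 2 * i + cs.length = E.card) :
    (E.card - 1).choose i ≤ Module.finrank K (kerS E x i cs) := by
  have h1 := LinearMap.finrank_range_add_finrank_ker
    ((rs (E.erase x) (i + cs.length)) ∘ₗ (P cs) ∘ₗ (ext (K := K) E i))
  have h2 : Module.finrank K (LinearMap.range
    ((rs (E.erase x) (i + cs.length)) ∘ₗ (P cs) ∘ₗ (ext (K := K) E i))) ≤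
      Module.finrank K (W K (E.erase x) (i + cs.length)) := Submodule.finrank_le _
  rw [finrank_W, Finset.card_erase_of_mem hx] at h2
  rw [finrank_W] at h1
  have h3 : Module.finrank K (kerS E x i cs) = Module.finrank K (LinearMap.ker
    ((rs (E.erase x) (i + cs.length)) ∘ₗ (P cs) ∘ₗ (ext (K := K) E i))) := rfl
  have hpos : 0 < E.card := Finset.card_pos.mpr ⟨x, hx⟩
  obtain ⟨n, hn⟩ : ∃ n, E.card = n + 1 := ⟨E.card - 1, by omega⟩
  rw [hn] at h1 h2 hcard ⊢
  simp only [Nat.add_sub_cancel] at h2 ⊢
  cases i with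
  | zero =>
    rw [Nat.choose_eq_zero_of_lt (by omega)] at h2
    simp only [Nat.choose_zero_right] at h1 ⊢
    omega
  | succ k =>
    have h4 : n.choose (k + 1 + cs.length) = n.choose k := by
      rw [← Nat.choose_symm (by omega : k ≤ n)]
      congr 1
      omega
    rw [h4] at h2
    rw [Nat.choose_succ_succ'] at h1
    omega

theorem kerS_sign {E : Finset ι} {x : ι} (hx : x ∈ E) (hHR : HR K (E.erase x)) (i : ℕ)
    (cs : List (ι → K)) (hpos : ∀ c ∈ cs, ∀ j, 0 < c j) (hcard : 2 * i + cs.length = E.card)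
    (f : W K E i) (hf : f ∈ kerS E x i cs) : 0 ≤ Q E i cs f f := by
  rw [mem_kerS] at hf
  rw [Q_apply, pr_eq_Der hx cs _ hf]
  have := Der_sign hHR x i (ext E i f) (Hom_ext f) cs [] (by simpa using hpos)
    (by
      rw [Finset.card_erase_of_mem hx]
      have : 0 < E.card := Finset.card_pos.mpr ⟨x, hx⟩
      simp only [List.nil_append]
      omega) (by simpa using hf)
  simpa using this

theorem HR_step_aux {E : Finset ι} {x : ι} (hx : x ∈ E) (hHL : HL K E)
    (hHR : HR K (E.erase x)) (i : ℕ) (cs : List (ι → K)) (hpos : ∀ c ∈ cs, ∀ j, 0 < c j)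
    (hcard : 2 * i + cs.length = E.card) (f : W K E i) (R : Submodule K (W K E i))
    (hR : ∀ r ∈ R, Q E i cs r r ≤ 0) (hRf : ∀ r ∈ R, Q E i cs r f = 0) (hf : f ∉ R)
    (hdim : E.card.choose i ≤ (E.card - 1).choose i + Module.finrank K R) :
    0 < Q E i cs f f := by
  by_contra hneg
  push Not at hneg
  have hf0 : f ≠ 0 := fun h => hf (h ▸ R.zero_mem)
  set M : Submodule K (W K E i) := R ⊔ Submodule.span K {f} with hM
  have hMsign : ∀ m ∈ M, Q E i cs m m ≤ 0 := by
    intro m hm
    rw [hM, Submodule.mem_sup] at hm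
    obtain ⟨r, hr, y, hy, rfl⟩ := hm
    obtain ⟨t, rfl⟩ := Submodule.mem_span_singleton.mp hy
    have e1 : Q E i cs (r + t • f) (r + t • f)
        = Q E i cs r r + t * t * Q E i cs f f := by
      simp only [map_add, map_smul, LinearMap.add_apply, LinearMap.smul_apply, smul_eq_mul,
        hRf r hr, Q_symm E i cs f r]
      ring
    rw [e1]
    have h1 := hR r hr
    have h2 : t * t * Q E i cs f f ≤ 0 := mul_nonpos_of_nonneg_of_nonpos (mul_self_nonneg t) hneg
    linarith
  have hdisj : R ⊓ Submodule.span K {f} = ⊥ := by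
    rw [← disjoint_iff]
    exact (Submodule.disjoint_span_singleton' hf0).mpr hf
  have hMrank : Module.finrank K M = Module.finrank K R + 1 := by
    have h1 := Submodule.finrank_sup_add_finrank_inf_eq R (Submodule.span K {f})
    rw [hdisj, finrank_bot, finrank_span_singleton hf0] at h1
    omega
  have h1 := finrank_semidef_le (Q E i cs) (Q_symm E i cs)
    (fun y hy => Q_nondeg hHL i cs hpos hcard y hy) (kerS E x i cs) M
    (fun p hp => kerS_sign hx hHR i cs hpos hcard p hp) hMsign
  have h2 := finrank_kerS (K := K) hx i cs hcard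
  rw [finrank_W] at h1
  omega

theorem HR_step {E : Finset ι} {x : ι} (hx : x ∈ E) (hHL : HL K E)
    (hHR : HR K (E.erase x)) : HR K E := by
  intro i cs c0 hpos hc0 hcard u hu hz hne
  -- pass to the finite-dimensional space
  have hfu : Z E (u - ext E i (rs E i u)) := ext_rs hu
  have hPfu : Z E (P cs u - P cs (ext E i (rs E i u))) := by
    rw [← map_sub]; exact hfu.P cs
  have hval : (-1) ^ i * pr E (P cs u) u = Q E i cs (rs E i u) (rs E i u) := by
    rw [Q_apply, pr_congr hPfu hfu]
  rw [hval]
  set f := rs E i u with hf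
  have hf0 : f ≠ 0 := by
    rw [hf]
    intro h
    exact hne ((rs_eq_zero hu).mp h)
  have hzf : Z E (L c0 (P cs (ext E i f))) := by
    have h1 : Z E (L c0 (P cs u) - L c0 (P cs (ext E i f))) := by
      rw [← map_sub]; exact hPfu.L c0
    intro S hS
    have h2 := Z.sub_iff.mp h1 S hS
    rw [← h2]
    exact hz S hS
  cases i with
  | zero =>
    refine HR_step_aux hx hHL hHR 0 cs hpos hcard f ⊥ ?_ ?_ ?_ ?_
    · intro r hr
      rw [Submodule.mem_bot] at hr
      rw [hr]
      simp
    · intro r hr
      rw [Submodule.mem_bot] at hr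
      rw [hr]
      simp
    · rw [Submodule.mem_bot]
      exact hf0
    · simp
  | succ k =>
    -- the image of the semidefinite subspace one degree below
    have hcard2 : 2 * k + (c0 :: c0 :: cs).length = E.card := by
      simp only [List.length_cons]
      omega
    have hpos2 : ∀ c ∈ c0 :: c0 :: cs, ∀ j, 0 < c j := by
      intro c hc
      simp only [List.mem_cons] at hc
      rcases hc with h | h | h
      · rw [h]; exact hc0
      · rw [h]; exact hc0
      · exact hpos c h
    let ψ : W K E k →ₗ[K] W K E (k + 1) := (rs E (k + 1)) ∘ₗ (L c0) ∘ₗ (ext E k)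
    have hψ : ∀ g, Z E (L c0 (ext E k g) - ext E (k + 1) (ψ g)) := fun g =>
      ext_rs ((Hom_ext g).L c0)
    have hcomm : ∀ v : Finset ι → K, P (c0 :: c0 :: cs) v = L c0 (P cs (L c0 v)) := by
      intro v
      rw [P_cons, P_cons, Module.End.mul_apply, L_P_comm, Module.End.mul_apply]
    have hinj : Function.Injective ψ := by
      rw [← LinearMap.ker_eq_bot, LinearMap.ker_eq_bot']
      intro g hg
      rw [← Z_ext]
      refine hHL k (c0 :: c0 :: cs) hpos2 hcard2 _ (Hom_ext g) ?_
      rw [hcomm]
      refine Z.L (Z.P ?_ cs) c0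
      have h1 := hψ g
      rw [hg, map_zero, sub_zero] at h1
      exact h1
    have hQψ : ∀ g h, Q E (k + 1) cs (ψ g) h
        = (-1) ^ (k + 1) * pr E (P cs (L c0 (ext E k g))) (ext E (k + 1) h) := by
      intro g h
      rw [Q_apply]
      congr 1
      refine (pr_congr ?_ ?_).symm
      · rw [← map_sub]
        exact (hψ g).P cs
      · rw [sub_self]
        intro S _
        rfl
    refine HR_step_aux hx hHL hHR (k + 1) cs hpos hcard f
      (Submodule.map ψ (kerS E x k (c0 :: c0 :: cs))) ?_ ?_ ?_ ?_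
    · rintro r ⟨g, hg, rfl⟩
      have h1 := kerS_sign hx hHR k (c0 :: c0 :: cs) hpos2 hcard2 g hg
      rw [Q_apply, hcomm, pr_L] at h1
      rw [hQψ]
      have h2 : pr E (P cs (L c0 (ext E k g))) (ext E (k + 1) (ψ g))
          = pr E (P cs (L c0 (ext E k g))) (L c0 (ext E k g)) := by
        refine (pr_congr ?_ (hψ g)).symm
        rw [sub_self]
        intro S _
        rfl
      rw [h2, pow_succ]
      linarith
    · rintro r ⟨g, hg, rfl⟩
      rw [hQψ, pr_P, pr_L]
      rw [pr_eq_zero' hzf, mul_zero]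
    · rintro ⟨g, hg, hgf⟩
      apply hf0
      have h1 : Z E (ext E k g) := by
        refine hHL k (c0 :: c0 :: cs) hpos2 hcard2 _ (Hom_ext g) ?_
        rw [hcomm]
        have h2 := hψ g
        rw [hgf] at h2
        have h3 : Z E (L c0 (P cs (L c0 (ext E k g))) - L c0 (P cs (ext E (k + 1) f))) := by
          rw [← map_sub, ← map_sub]
          exact (h2.P cs).L c0
        intro S hS
        rw [Z.sub_iff.mp h3 S hS]
        exact hzf S hS
      rw [Z_ext] at h1
      rw [← hgf, h1, map_zero]
    · rw [← (Submodule.equivMapOfInjective ψ hinj (kerS E x k (c0 :: c0 :: cs))).finrank_eq]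
      have h1 := finrank_kerS (K := K) hx k (c0 :: c0 :: cs) hcard2
      have hp : 0 < E.card := Finset.card_pos.mpr ⟨x, hx⟩
      obtain ⟨n, hn⟩ : ∃ n, E.card = n + 1 := ⟨E.card - 1, by omega⟩
      rw [hn] at h1 ⊢
      simp only [Nat.add_sub_cancel] at h1 ⊢
      rw [Nat.choose_succ_succ']
      omega

theorem HR_empty : HR K (∅ : Finset ι) := by
  intro i cs c0 _ _ hcard u hu _ hne
  simp only [Finset.card_empty] at hcard
  have hi : i = 0 := by omega
  have hcs : cs = [] := List.length_eq_zero_iff.mp (by omega)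
  subst hi
  subst hcs
  have h1 : u ∅ ≠ 0 := by
    intro h
    apply hne
    intro S hS
    rw [Finset.subset_empty.mp hS, h]
  simp only [pow_zero, one_mul, P_nil, Module.End.one_apply, pr, Finset.powerset_empty,
    Finset.sum_singleton, Finset.sdiff_self]
  exact mul_self_pos.mpr h1

theorem HR_HL (n : ℕ) : ∀ E : Finset ι, E.card = n → HL K E ∧ HR K E := by
  induction n with
  | zero =>
    intro E hE
    have : E = ∅ := Finset.card_eq_zero.mp hE
    subst this
    refine ⟨HL_of_HR _ ?_, HR_empty⟩
    intro j hj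
    simp at hj
  | succ n ih =>
    intro E hE
    have h1 : ∀ j ∈ E, HR K (E.erase j) := by
      intro j hj
      refine (ih _ ?_).2
      rw [Finset.card_erase_of_mem hj, hE]
      rfl
    have h2 : HL K E := HL_of_HR E h1
    have hp : 0 < E.card := by omega
    obtain ⟨x, hx⟩ := Finset.card_pos.mp hp
    exact ⟨h2, HR_step hx h2 (h1 x hx)⟩

theorem hardLefschetz_eq (E : Finset ι) : HL K E := (HR_HL E.card E rfl).1

theorem hodgeRiemann (E : Finset ι) : HR K E := (HR_HL E.card E rfl).2

/-- Mixed hard Lefschetz, injectivity in the lower half: a product of `c` positive forms is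
injective on degree `i` when `2 i + c ≤ |E|`. -/
theorem hardLefschetz (E : Finset ι) (i : ℕ) (cs : List (ι → K))
    (hpos : ∀ c ∈ cs, ∀ j, 0 < c j) (hcard : 2 * i + cs.length ≤ E.card)
    (u : Finset ι → K) (hu : Hom i u) (hz : Z E (P cs u)) : Z E u := by
  refine hardLefschetz_eq E i (List.replicate (E.card - (2 * i + cs.length)) 1 ++ cs) ?_ ?_ u hu ?_
  · intro c hc
    rw [List.mem_append] at hc
    rcases hc with h | h
    · rw [List.eq_of_mem_replicate h]
      intro j
      exact one_pos
    · exact hpos c h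
  · rw [List.length_append, List.length_replicate]
    omega
  · rw [P_append, Module.End.mul_apply]
    exact hz.P _

end LibMHL5
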